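import Pool.Agent.Helper26.RP.Goals

/-! Packet AFF: affine maps. -/

namespace RP.PkAFF

open RP MeasureTheory

theorem det_eq (L : E →ₗ[ℝ] E) :
    LinearMap.det L = (L (1, 0)).1 * (L (0, 1)).2 - (L (0, 1)).1 * (L (1, 0)).2 := by
  rw [← LinearMap.det_toMatrix (Module.Basis.finTwoProd ℝ) L, Matrix.det_fin_two]
  simp [LinearMap.toMatrix_apply, Module.Basis.finTwoProd_zero, Module.Basis.finTwoProd_one]

theorem L_eq (L : E →ₗ[ℝ] E) (p : E) : L p = p.1 • L (1, 0) + p.2 • L (0, 1) := by
  rw [← map_smul, ← map_smul, ← map_add]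
  simp

theorem orient_L (L : E →ₗ[ℝ] E) (t a b c : E) :
    orient (L a + t) (L b + t) (L c + t) = LinearMap.det L * orient a b c := by
  rw [det_eq, L_eq L a, L_eq L b, L_eq L c]
  unfold orient
  simp only [Prod.fst_add, Prod.snd_add, Prod.smul_fst, Prod.smul_snd, smul_eq_mul]
  ring

theorem inj (L : E →ₗ[ℝ] E) (t : E) (h : LinearMap.det L ≠ 0) :
    Function.Injective (fun p => L p + t) := by
  intro p q hpq
  have h1 : L p = L q := add_right_cancel hpq
  exact (L.equivOfDetNeZero h).injective h1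

theorem seg (L : E →ₗ[ℝ] E) (t a b : E) :
    (fun p => L p + t) '' segment ℝ a b = segment ℝ (L a + t) (L b + t) := by
  exact image_segment ℝ (L.toAffineMap + AffineMap.const ℝ E t) a b

theorem nx_iff (L : E →ₗ[ℝ] E) (t : E) (h : LinearMap.det L ≠ 0) (a b c d : E) :
    NX (L a + t) (L b + t) (L c + t) (L d + t) ↔ NX a b c d := by
  have hi := inj L t h
  have e : ∀ p q : E, L p + t = L q + t ↔ p = q := fun p q => hi.eq_iff
  unfold NX
  rw [e, e, e, e, ← seg, ← seg, Set.disjoint_image_iff hi]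

theorem gp_iff (L : E →ₗ[ℝ] E) (t : E) (h : LinearMap.det L ≠ 0) {ι : Type} (x : ι → E) :
    GP (fun i => L (x i) + t) ↔ GP x := by
  unfold GP
  refine forall_congr' fun i => forall_congr' fun j => forall_congr' fun k => ?_
  rw [orient_L]
  simp [h]

theorem cl_iff (L : E →ₗ[ℝ] E) (t : E) (h : LinearMap.det L ≠ 0) {ι : Type} (S : ι → ι)
    (x : ι → E) : Cl S (fun i => L (x i) + t) ↔ Cl S x := by
  unfold Cl
  rw [gp_iff L t h]
  refine and_congr_right fun _ => forall_congr' fun i => forall_congr' fun j => ?_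
  exact nx_iff L t h _ _ _ _

theorem vol_image (L : E →ₗ[ℝ] E) (t : E) (U : Set E) :
    volume ((fun p => L p + t) '' U) = ENNReal.ofReal |LinearMap.det L| * volume U := by
  have : (fun p => L p + t) '' U = (fun p => p + t) '' (L '' U) := by
    rw [Set.image_image]
  rw [this, Set.image_add_right, measure_preimage_add_right, Measure.addHaar_image_linearMap]

theorem vol_image_pi (L : E →ₗ[ℝ] E) (t : E) (n : ℕ) (S : Set (Fin n → E)) :
    volume ((fun (x : Fin n → E) i => L (x i) + t) '' S) =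
      ENNReal.ofReal |LinearMap.det L| ^ n * volume S := by
  let Λ : (Fin n → E) →ₗ[ℝ] (Fin n → E) := LinearMap.pi fun i => L.comp (LinearMap.proj i)
  have : (fun (x : Fin n → E) i => L (x i) + t) '' S =
      (fun x : Fin n → E => x + fun _ => t) '' (Λ '' S) := by
    rw [Set.image_image]
    rfl
  rw [this, Set.image_add_right, measure_preimage_add_right, Measure.addHaar_image_linearMap]
  have hd : LinearMap.det Λ = LinearMap.det L ^ n := by
    have := LinearMap.det_pi (fun _ : Fin n => L)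
    simpa [Λ] using this
  rw [hd, abs_pow, ENNReal.ofReal_pow (abs_nonneg _)]

theorem vc_image (L : E →ₗ[ℝ] E) (t : E) (h : LinearMap.det L ≠ 0) (n : ℕ) (U : Set E) :
    vc n ((fun p => L p + t) '' U) = ENNReal.ofReal |LinearMap.det L| ^ n * vc n U := by
  unfold vc
  rw [← vol_image_pi L t n]
  congr 1
  ext x
  constructor
  · rintro ⟨h1, h2⟩
    choose y hy hyx using h1
    have hx : x = fun i => L (y i) + t := by
      funext i
      exact (hyx i).symm
    refine ⟨y, ⟨hy, ?_⟩, hx.symm⟩
    rw [hx] at h2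
    exact (cl_iff L t h _ _).1 h2
  · rintro ⟨y, ⟨h1, h2⟩, rfl⟩
    exact ⟨fun i => ⟨y i, h1 i, rfl⟩, (cl_iff L t h _ _).2 h2⟩

theorem ar_image (L : E →ₗ[ℝ] E) (t : E) (U : Set E) :
    ar ((fun p => L p + t) '' U) = |LinearMap.det L| * ar U := by
  unfold ar
  rw [vol_image, ENNReal.toReal_mul, ENNReal.toReal_ofReal (abs_nonneg _)]

theorem body_image (L : E →ₗ[ℝ] E) (t : E) (h : LinearMap.det L ≠ 0) (U : Set E) (hU : Body U) :
    Body ((fun p => L p + t) '' U) := by
  have e : (fun p => L p + t) '' U = (fun p => p + t) '' (L '' U) := by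
    rw [Set.image_image]
  refine ⟨?_, ?_, ?_⟩
  · exact hU.conv.affine_image (L.toAffineMap + AffineMap.const ℝ E t)
  · exact hU.cpt.image (L.continuous_of_finiteDimensional.add continuous_const)
  · have ho : IsOpenMap (fun p => L p + t) := by
      have h1 : IsOpenMap (L : E → E) :=
        ((L.equivOfDetNeZero h).toContinuousLinearEquiv.toHomeomorph).isOpenMap
      exact (Homeomorph.addRight t).isOpenMap.comp h1
    obtain ⟨p, hp⟩ := hU.int
    exact ⟨L p + t, interior_mono (Set.image_mono interior_subset)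
      ((ho _ isOpen_interior).interior_eq.symm ▸ Set.mem_image_of_mem _ hp)⟩

theorem aff : G_AFF := by
  intro L t h
  refine ⟨fun ι S x => cl_iff L t h S x, fun n U => vc_image L t h n U, fun U => ar_image L t U,
    fun n U hU => ⟨body_image L t h U hU, ?_⟩⟩
  unfold w vr
  rw [vc_image L t h, ar_image, ENNReal.toReal_mul, ENNReal.toReal_pow,
    ENNReal.toReal_ofReal (abs_nonneg _), mul_pow]
  have hd : |LinearMap.det L| ^ n ≠ 0 := pow_ne_zero _ (abs_ne_zero.2 h)
  rw [mul_left_comm, mul_div_mul_left _ _ hd]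

end RP.PkAFF
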