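import Pool.Agent.Helper53.RP.AFF

/-! Packet TRI: a large inscribed triangle. -/

namespace RP.PkTRI

open RP MeasureTheory

theorem exists_pos (K : Set E) (hK : Body K) :
    ∃ p ∈ K, ∃ q ∈ K, ∃ r ∈ K, 0 < orient p q r := by
  obtain ⟨c, hc⟩ := hK.int
  obtain ⟨ε, hε, hb⟩ := Metric.isOpen_iff.1 isOpen_interior c hc
  refine ⟨c, interior_subset hc, c + (ε / 2, 0), interior_subset (hb ?_), c + (0, ε / 2),
    interior_subset (hb ?_), ?_⟩
  · rw [Metric.mem_ball, dist_eq_norm]
    simp only [add_sub_cancel_left]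
    rw [Prod.norm_def]
    simp only [norm_zero, Real.norm_eq_abs]
    rw [abs_of_pos (by positivity)]
    exact max_lt (by linarith) hε
  · rw [Metric.mem_ball, dist_eq_norm]
    simp only [add_sub_cancel_left]
    rw [Prod.norm_def]
    simp only [norm_zero, Real.norm_eq_abs]
    rw [abs_of_pos (by positivity)]
    exact max_lt hε (by linarith)
  · unfold orient
    simp only [Prod.fst_add, Prod.snd_add]
    ring_nf
    positivity

theorem exists_max (K : Set E) (hK : Body K) :
    ∃ p ∈ K, ∃ q ∈ K, ∃ r ∈ K, 0 < orient p q r ∧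
      ∀ a ∈ K, ∀ b ∈ K, ∀ c ∈ K, orient a b c ≤ orient p q r := by
  obtain ⟨p, hp, q, hq, r, hr, h0⟩ := exists_pos K hK
  have hc : IsCompact (K ×ˢ K ×ˢ K) := hK.cpt.prod (hK.cpt.prod hK.cpt)
  have hcont : ContinuousOn (fun z : E × E × E => orient z.1 z.2.1 z.2.2) (K ×ˢ K ×ˢ K) := by
    unfold orient
    exact Continuous.continuousOn (by fun_prop)
  obtain ⟨⟨a, b, c⟩, ⟨ha, hb, hc'⟩, hm⟩ := hc.exists_isMaxOn ⟨(p, q, r), hp, hq, hr⟩ hcont
  refine ⟨a, ha, b, hb, c, hc', lt_of_lt_of_le h0
    (hm (show (p, q, r) ∈ K ×ˢ K ×ˢ K from ⟨hp, hq, hr⟩)), ?_⟩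
  intro a' ha' b' hb' c' hc''
  exact hm (show (a', b', c') ∈ K ×ˢ K ×ˢ K from ⟨ha', hb', hc''⟩)

theorem subset_big {K : Set E} {p q r : E} (hp : p ∈ K) (hq : q ∈ K) (hr : r ∈ K)
    (h0 : 0 < orient p q r) (hm : ∀ a ∈ K, ∀ b ∈ K, ∀ c ∈ K, orient a b c ≤ orient p q r) :
    K ⊆ tri (q + r - p) (p + r - q) (p + q - r) := by
  intro z hz
  set T := orient p q r with hT
  have e1 := hm z hz q hq r hr
  have e2 := hm p hp z hz r hr
  have e3 := hm p hp q hq z hz
  have hsum : orient z q r + orient p z r + orient p q z = T := by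
    rw [hT]
    unfold orient
    ring
  have hT' : T ≠ 0 := h0.ne'
  have key : z = ((1 - orient z q r / T) / 2) • (q + r - p) +
      ((1 - orient p z r / T) / 2) • (p + r - q) + ((1 - orient p q z / T) / 2) • (p + q - r) := by
    have hz : T • z = orient z q r • p + orient p z r • q + orient p q z • r := by
      rw [hT]
      ext <;> simp [orient] <;> ring
    have hz' : z = (orient z q r / T) • p + (orient p z r / T) • q + (orient p q z / T) • r := by
      have h2 : z = T⁻¹ • (T • z) := by rw [smul_smul, inv_mul_cancel₀ hT', one_smul]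
      rw [hz] at h2
      simpa only [smul_add, smul_smul, div_eq_inv_mul] using h2
    have h1 : orient z q r / T + orient p z r / T + orient p q z / T = 1 := by
      field_simp
      linarith
    set a := orient z q r / T
    set b := orient p z r / T
    set c := orient p q z / T
    have ha : a = 1 - b - c := by linarith
    rw [hz', ha]
    ext <;> simp <;> ring
  have w1 : 0 ≤ (1 - orient z q r / T) / 2 := by
    have : orient z q r / T ≤ 1 := (div_le_one h0).2 e1
    linarith
  have w2 : 0 ≤ (1 - orient p z r / T) / 2 := by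
    have : orient p z r / T ≤ 1 := (div_le_one h0).2 e2
    linarith
  have w3 : 0 ≤ (1 - orient p q z / T) / 2 := by
    have : orient p q z / T ≤ 1 := (div_le_one h0).2 e3
    linarith
  have hw : (1 - orient z q r / T) / 2 + (1 - orient p z r / T) / 2 +
      (1 - orient p q z / T) / 2 = 1 := by
    field_simp
    linarith
  rw [key]
  unfold tri
  have hc := convex_convexHull ℝ ({q + r - p, p + r - q, p + q - r} : Set E)
  have m1 : (q + r - p) ∈ convexHull ℝ ({q + r - p, p + r - q, p + q - r} : Set E) :=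
    subset_convexHull ℝ _ (by simp)
  have m2 : (p + r - q) ∈ convexHull ℝ ({q + r - p, p + r - q, p + q - r} : Set E) :=
    subset_convexHull ℝ _ (by simp)
  have m3 : (p + q - r) ∈ convexHull ℝ ({q + r - p, p + r - q, p + q - r} : Set E) :=
    subset_convexHull ℝ _ (by simp)
  have := hc.sum_mem (t := (Finset.univ : Finset (Fin 3)))
    (w := ![(1 - orient z q r / T) / 2, (1 - orient p z r / T) / 2, (1 - orient p q z / T) / 2])
    (z := ![q + r - p, p + r - q, p + q - r]) ?_ ?_ ?_
  · simpa [Fin.sum_univ_three] using this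
  · intro i _
    fin_cases i <;> simpa
  · rw [Fin.sum_univ_three]
    simpa using hw
  · intro i _
    fin_cases i <;> simpa

theorem trin : G_TRI := by
  intro K hK
  obtain ⟨p, hp, q, hq, r, hr, h0, hm⟩ := exists_max K hK
  refine ⟨p, q, r, h0.ne', convexHull_min ?_ hK.conv, ?_⟩
  · rintro x (rfl | rfl | rfl) <;> assumption
  · have hsub := subset_big hp hq hr h0 hm
    have himg : tri (q + r - p) (p + r - q) (p + q - r) =
        (fun z => ((-2 : ℝ) • (LinearMap.id : E →ₗ[ℝ] E)) z + (p + q + r)) '' tri p q r := by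
      unfold tri
      have := AffineMap.image_convexHull
        (((-2 : ℝ) • (LinearMap.id : E →ₗ[ℝ] E)).toAffineMap + AffineMap.const ℝ E (p + q + r))
        ({p, q, r} : Set E)
      refine Eq.trans ?_ this.symm
      congr 1
      rw [Set.image_insert_eq, Set.image_insert_eq, Set.image_singleton]
      have f1 : ∀ x : E, (((-2 : ℝ) • (LinearMap.id : E →ₗ[ℝ] E)).toAffineMap +
          AffineMap.const ℝ E (p + q + r)) x = -2 • x + (p + q + r) := by
        intro x
        ext <;> simp
      rw [f1, f1, f1]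
      congr 1
      · ext <;> simp <;> ring
      · congr 1
        · ext <;> simp <;> ring
        · congr 1
          ext <;> simp <;> ring
    have hdet : |LinearMap.det ((-2 : ℝ) • (LinearMap.id : E →ₗ[ℝ] E))| = 4 := by
      rw [LinearMap.det_smul]
      simp
      norm_num
    have har := PkAFF.ar_image ((-2 : ℝ) • (LinearMap.id : E →ₗ[ℝ] E)) (p + q + r) (tri p q r)
    rw [← himg, hdet] at har
    rw [← har]
    unfold ar
    refine ENNReal.toReal_mono ?_ (measure_mono hsub)
    have hcpt : IsCompact (tri (q + r - p) (p + r - q) (p + q - r)) :=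
      (Set.toFinite _).isCompact_convexHull ℝ
    exact hcpt.measure_lt_top.ne

end RP.PkTRI
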